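import Pool.Agent.V11325.PamSol

/-!
# Eventual monotonicity in time of the parabolic Anderson model (MP_360c0a_pr)
-/

open MeasureTheory ProbabilityTheory

namespace Pool.Agent.Results.MP_360c0a_pr.EventuallyIncreasing

open Pool.Agent.V11325.Pam

/-- **Eventual monotonicity.** Let `a > 0`. There is a deterministic time `T`, depending only on
`a`, such that the following holds for every i.i.d. environment `ξ` with `a ≤ ξ(0) ≤ b` almost
surely for some `b` (so `ess inf ξ(0) ≥ a`) and every initial condition with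
`1_{0} ≤ u₀ ≤ C 1_{x ≤ 0}`: almost surely the parabolic Anderson model has exactly one solution on
`[0, ∞)`, and it is strictly increasing in time on `[T, ∞)` at every site. -/
theorem result (a : ℝ) (ha : 0 < a) : ∃ T : ℝ,
    ∀ (Ω : Type) [MeasurableSpace Ω] (P : Measure Ω) [IsProbabilityMeasure P] (ξ : ℤ → Ω → ℝ),
    iIndepFun ξ P → (∀ x, IdentDistrib (ξ x) (ξ 0) P P) →
    ∀ b : ℝ, (∀ᵐ ω ∂P, a ≤ ξ 0 ω ∧ ξ 0 ω ≤ b) →
    ∀ (u₀ : ℤ → ℕ) (C : ℕ), (∀ x, u₀ x ≤ if x ≤ 0 then C else 0) → 1 ≤ u₀ 0 →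
    ∀ᵐ ω ∂P, (∃ u, IsPAM (fun x => ξ x ω) u₀ u) ∧
      (∀ u v, IsPAM (fun x => ξ x ω) u₀ u → IsPAM (fun x => ξ x ω) u₀ v →
        ∀ t, 0 ≤ t → ∀ x, u t x = v t x) ∧
      ∀ u, IsPAM (fun x => ξ x ω) u₀ u → ∀ x, StrictMonoOn (fun t => u t x) (Set.Ici T) := by
  refine ⟨max 0 (2 / a * Real.log (2 / a)), ?_⟩
  intro Ω _ P _ ξ _ hid b hab u₀ C hC h1
  have hall : ∀ᵐ ω ∂P, ∀ x, a ≤ ξ x ω ∧ ξ x ω ≤ b := by
    rw [ae_all_iff]
    intro x
    have h2 : MeasurableSet {y : ℝ | a ≤ y ∧ y ≤ b} := measurableSet_Icc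
    exact ((hid x).symm.ae_snd (p := fun y => a ≤ y ∧ y ≤ b) h2 hab)
  filter_upwards [hall] with ω hω
  have hξM : ∀ x, |ξ x ω| ≤ b := fun x => by
    rw [abs_of_nonneg (ha.le.trans (hω x).1)]
    exact (hω x).2
  have hu₀ : ∀ x, u₀ x ≤ C := by
    intro x
    have h3 := hC x
    split_ifs at h3
    · exact h3
    · omega
  refine ⟨⟨_, isPAM_sol hξM hu₀ 0⟩, fun u v hu hv t ht x => hu.unique hξM hv ht x, ?_⟩
  intro u hu x
  refine strictMono ha hω hu₀ h1 hu (le_max_left _ _) ?_ x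
  have h4 : 0 < 2 / a := by positivity
  have h5 : Real.log (2 / a) ≤ a / 2 * max 0 (2 / a * Real.log (2 / a)) := by
    have h6 : a / 2 * (2 / a * Real.log (2 / a)) = Real.log (2 / a) := by
      field_simp
    calc Real.log (2 / a) = a / 2 * (2 / a * Real.log (2 / a)) := h6.symm
      _ ≤ a / 2 * max 0 (2 / a * Real.log (2 / a)) :=
        mul_le_mul_of_nonneg_left (le_max_right _ _) (by positivity)
  have h7 : 2 / a ≤ Real.exp (a / 2 * max 0 (2 / a * Real.log (2 / a))) := by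
    rw [← Real.log_le_iff_le_exp h4]
    exact h5
  calc (1 : ℝ) = a / 2 * (2 / a) := by field_simp
    _ ≤ a / 2 * Real.exp (a / 2 * max 0 (2 / a * Real.log (2 / a))) :=
      mul_le_mul_of_nonneg_left h7 (by positivity)

end Pool.Agent.Results.MP_360c0a_pr.EventuallyIncreasing
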